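import Pool.Agent.H914R2.StdDefs
import Pool.Agent.N103.OC.Defs

/-!
# Operators acting by given scalars on the cohomology groups: definitions
-/

open CategoryTheory AlgebraicGeometry

set_option autoImplicit false

universe u v

namespace Pool.Agent.N103.WT

open Pool.Agent.H914 VarClass Obj WeilCohomology

/-- The operator `P` acts on the `i`-th piece of the grading `g` as multiplication by `c i`. -/
def ActsAs {K : Type*} {V : Type*} [Field K] [AddCommGroup V] [Module K V]
    (g : ℕ → Submodule K V) (c : ℕ → ℚ) (P : V →ₗ[K] V) : Prop :=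
  ∀ i, ∀ x ∈ g i, P x = (c i : K) • x

/-- Some linear combination of the operators `φ z`, for `z` with the property `p`, acts on the
`i`-th piece of the grading `g` as multiplication by `c i`. -/
def CombinationActsAs {K : Type*} {V : Type*} {C : Type*} [Field K] [AddCommGroup V]
    [Module K V] (g : ℕ → Submodule K V) (c : ℕ → ℚ) (p : C → Prop) (φ : C → V →ₗ[K] V) : Prop :=
  ∃ P ∈ Submodule.span K {ψ : V →ₗ[K] V | ∃ z, p z ∧ φ z = ψ}, ActsAs g c P

variable {k : Type u} [Field k] {𝒱 : VarClass k} {ops : CycleOps 𝒱}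

/-- Some cycle with rational coefficients, of codimension `dim X` on `X × X`, acts on `H^i(X)` as
multiplication by `c i`, for all `i`. -/
def RationalWeight (W : WeilCohomology.{u, v} ops) (X : 𝒱.Obj) (c : ℕ → ℚ) : Prop :=
  ∃ z, (X.prod X).IsCyc X.dim z ∧ ActsAs (W.gr X) c (W.corr (W.cl (X.prod X) z))

/-- Some combination, with coefficients in the coefficient field `K` of the cohomology theory, of
cycles of codimension `dim X` on `X × X` acts on `H^i(X)` as multiplication by `c i`, for all
`i`. -/
def SpanWeight (W : WeilCohomology.{u, v} ops) (X : 𝒱.Obj) (c : ℕ → ℚ) : Prop :=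
  CombinationActsAs (W.gr X) c ((X.prod X).IsCyc X.dim) fun z => W.corr (W.cl (X.prod X) z)

/-- The product `X × E × … × E` with `r` factors `E`. -/
noncomputable def timesPow (X E : 𝒱.Obj) : ℕ → 𝒱.Obj
  | 0 => X
  | r + 1 => (timesPow X E r).prod E

/-- `E` is a curve with `H^1(E) ≠ 0` which has a zero-cycle of degree different from zero
(`DualCycles`). -/
def IsCurve (W : WeilCohomology.{u, v} ops) (E : 𝒱.Obj) : Prop :=
  E.dim = 1 ∧ W.gr E 1 ≠ ⊥ ∧ Pool.Agent.N103.OC.DualCycles ops E

/-- The degrees `i` and `m` are not separated by the function `c`: `c (i + s) = c (m + s)` for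
all `s`. -/
def Same (c : ℕ → ℚ) (i m : ℕ) : Prop := ∀ s, c (i + s) = c (m + s)

open Classical in
/-- The indicator function of the class of `m`. -/
noncomputable def cls (c : ℕ → ℚ) (m i : ℕ) : ℚ := if Same c i m then 1 else 0

/-- The indicator function of the even numbers. -/
def even (i : ℕ) : ℚ := if i % 2 = 0 then 1 else 0

/-- The indicator function of `{m}`. -/
def delta (m i : ℕ) : ℚ := if i = m then 1 else 0

/-- `c` has no odd eventual period. -/
def NoOddPeriod (c : ℕ → ℚ) : Prop := ¬ ∃ N p, Odd p ∧ ∀ i ≥ N, c (i + p) = c i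

/-- `c` is not eventually periodic. -/
def NoPeriod (c : ℕ → ℚ) : Prop := ¬ ∃ N p, 0 < p ∧ ∀ i ≥ N, c (i + p) = c i

end Pool.Agent.N103.WT
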