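import Pool.Agent.N103.OC.Core
import Pool.Agent.N103.WT.Defs

/-!
# Operators acting by given scalars on the cohomology groups
-/

set_option autoImplicit false

open CategoryTheory AlgebraicGeometry Finset TensorProduct

universe u v

namespace Pool.Agent.N103.WT

open Pool.Agent.H914 VarClass Obj WeilCohomology Pool.Agent.N190.CB Pool.Agent.N103.OC

/-! ### Functions -/

lemma same_refl (c : ℕ → ℚ) (m : ℕ) : Same c m m := fun _ => rfl

lemma Same.symm {c : ℕ → ℚ} {i m : ℕ} (h : Same c i m) : Same c m i := fun s => (h s).symm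

lemma Same.trans {c : ℕ → ℚ} {i m l : ℕ} (h : Same c i m) (h' : Same c m l) : Same c i l :=
  fun s => (h s).trans (h' s)

lemma Same.add {c : ℕ → ℚ} {i m : ℕ} (h : Same c i m) (j : ℕ) : Same c (i + j) (m + j) :=
  fun s => by rw [add_assoc, add_assoc]; exact h (j + s)

lemma same_even {c : ℕ → ℚ} (hc : NoOddPeriod c) {i m : ℕ} (h : Same c i m) :
    WT.even i = WT.even m := by
  have key : ∀ i m, i ≤ m → Same c i m → WT.even i = WT.even m := by
    intro i m him h
    unfold WT.even
    by_cases hp : i % 2 = m % 2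
    · rw [hp]
    · exfalso
      apply hc
      refine ⟨i, m - i, Nat.odd_iff.2 (by omega), fun l hl => ?_⟩
      have := h (l - i)
      rw [show i + (l - i) = l by omega, show m + (l - i) = l + (m - i) by omega] at this
      exact this.symm
  rcases le_total i m with him | him
  · exact key i m him h
  · exact (key m i him h.symm).symm

lemma same_eq {c : ℕ → ℚ} (hc : NoPeriod c) {i m : ℕ} (h : Same c i m) : i = m := by
  have key : ∀ i m, i ≤ m → Same c i m → i = m := by
    intro i m him h
    by_contra hne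
    apply hc
    refine ⟨i, m - i, by omega, fun l hl => ?_⟩
    have := h (l - i)
    rw [show i + (l - i) = l by omega, show m + (l - i) = l + (m - i) by omega] at this
    exact this.symm
  rcases le_total i m with him | him
  · exact key i m him h
  · exact (key m i him h.symm).symm

/-- Finitely many shifts are enough. -/
lemma exists_bound (c : ℕ → ℚ) (d : ℕ) : ∃ N, ∀ i ≤ d, ∀ m ≤ d,
    (∀ s ≤ N, c (i + s) = c (m + s)) → Same c i m := by
  classical
  have h1 : ∀ i m, ∃ N, (∀ s ≤ N, c (i + s) = c (m + s)) → Same c i m := by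
    intro i m
    by_cases h : Same c i m
    · exact ⟨0, fun _ => h⟩
    · unfold Same at h
      push Not at h
      obtain ⟨s, hs⟩ := h
      exact ⟨s, fun h' => absurd (h' s le_rfl) hs⟩
  choose N hN using h1
  refine ⟨(range (d + 1)).sup fun i => (range (d + 1)).sup (N i), fun i hi m hm h => ?_⟩
  refine hN i m fun s hs => h s (hs.trans ?_)
  refine le_trans ?_ (Finset.le_sup (f := fun i => (range (d + 1)).sup (N i))
    (mem_range.2 (Nat.lt_succ_of_le hi)))
  exact Finset.le_sup (f := N i) (mem_range.2 (Nat.lt_succ_of_le hm))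

variable {k : Type u} [Field k] {𝒱 : VarClass k} {ops : CycleOps 𝒱}
  {W : WeilCohomology.{u, v} ops} {X Y Z E : 𝒱.Obj}
  {Op : ∀ X : 𝒱.Obj, Set (Module.End W.K (W.H X))}

/-- The operator acting as `c i` on `H^i(X)`. -/
noncomputable def op (W : WeilCohomology.{u, v} ops) (X : 𝒱.Obj) (c : ℕ → ℚ) :
    Module.End W.K (W.H X) := scal (W.isInternal X) fun i => (c i : W.K)

lemma actsAs_iff {c : ℕ → ℚ} {P : Module.End W.K (W.H X)} :
    ActsAs (W.gr X) c P ↔ P = op W X c := by
  constructor
  · intro h
    apply gr_ext (W.isInternal X)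
    intro i x hx
    rw [h i x hx, op, scal_apply _ _ hx]
  · rintro rfl i x hx
    rw [op, scal_apply _ _ hx]

lemma op_congr {c c' : ℕ → ℚ} (h : ∀ i ≤ 2 * X.dim, c i = c' i) : op W X c = op W X c' := by
  apply gr_ext (W.isInternal X)
  intro i x hx
  rw [op, op, scal_apply _ _ hx, scal_apply _ _ hx]
  by_cases hi : i ≤ 2 * X.dim
  · rw [h i hi]
  · rw [W.gr_eq_bot X i (by omega), Submodule.mem_bot] at hx
    rw [hx, smul_zero, smul_zero]

lemma op_mul (c c' : ℕ → ℚ) : op W X c * op W X c' = op W X (fun i => c i * c' i) := by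
  rw [op, op, op, scal_mul]
  congr 1
  funext i
  push_cast
  ring

lemma op_add (c c' : ℕ → ℚ) : op W X c + op W X c' = op W X (fun i => c i + c' i) := by
  apply gr_ext (W.isInternal X)
  intro i x hx
  rw [LinearMap.add_apply, op, op, op, scal_apply _ _ hx, scal_apply _ _ hx, scal_apply _ _ hx,
    ← add_smul, Rat.cast_add]

lemma op_smul (q : ℚ) (c : ℕ → ℚ) : (q : W.K) • op W X c = op W X (fun i => q * c i) := by
  apply gr_ext (W.isInternal X)
  intro i x hx
  rw [LinearMap.smul_apply, op, op, scal_apply _ _ hx, scal_apply _ _ hx, smul_smul, Rat.cast_mul]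

lemma op_one : op W X (fun _ => 1) = 1 := by
  apply gr_ext (W.isInternal X)
  intro i x hx
  rw [op, scal_apply _ _ hx, Rat.cast_one, one_smul, Module.End.one_apply]

lemma op_delta (m : ℕ) : op W X (delta m) = proj (W.isInternal X) m := by
  rw [op, proj]
  congr 1
  funext i
  rw [delta]
  split_ifs <;> simp

/-- The operators in the class form an algebra of functions. -/
lemma fadd (h : OpClass W Op) {c c' : ℕ → ℚ} (hc : op W X c ∈ Op X) (hc' : op W X c' ∈ Op X) :
    op W X (fun i => c i + c' i) ∈ Op X := by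
  rw [← op_add]
  exact h.add hc hc'

lemma fsmul (h : OpClass W Op) (q : ℚ) {c : ℕ → ℚ} (hc : op W X c ∈ Op X) :
    op W X (fun i => q * c i) ∈ Op X := by
  rw [← op_smul]
  exact h.smul q hc

lemma fmul (h : OpClass W Op) {c c' : ℕ → ℚ} (hc : op W X c ∈ Op X) (hc' : op W X c' ∈ Op X) :
    op W X (fun i => c i * c' i) ∈ Op X := by
  rw [← op_mul]
  exact h.mul hc hc'

lemma fconst (h : OpClass W Op) (q : ℚ) : op W X (fun _ => q) ∈ Op X := by
  have := fsmul h q (c := fun _ => 1) (by rw [op_one]; exact h.one X)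
  simpa using this

lemma fsum (h : OpClass W Op) {ι : Type} {s : Finset ι} {f : ι → ℕ → ℚ}
    (hf : ∀ a ∈ s, op W X (f a) ∈ Op X) : op W X (fun i => ∑ a ∈ s, f a i) ∈ Op X := by
  classical
  induction s using Finset.induction_on with
  | empty => simpa using fconst h (X := X) 0
  | insert a s ha ih =>
    have := fadd h (hf a (by simp)) (ih (fun i hi => hf i (by simp [hi])))
    simpa [Finset.sum_insert ha] using this

lemma fprod (h : OpClass W Op) {ι : Type} {s : Finset ι} {f : ι → ℕ → ℚ}
    (hf : ∀ a ∈ s, op W X (f a) ∈ Op X) : op W X (fun i => ∏ a ∈ s, f a i) ∈ Op X := by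
  classical
  induction s using Finset.induction_on with
  | empty => simpa using fconst h (X := X) 1
  | insert a s ha ih =>
    have := fmul h (hf a (by simp)) (ih (fun i hi => hf i (by simp [hi])))
    simpa [Finset.prod_insert ha] using this

/-- **The classes from the shifts.** -/
lemma cls_mem (h : OpClass W Op) {c : ℕ → ℚ} {N : ℕ}
    (hN : ∀ i ≤ 2 * X.dim, ∀ m ≤ 2 * X.dim, (∀ s ≤ N, c (i + s) = c (m + s)) → Same c i m)
    (hc : ∀ s ≤ N, op W X (fun i => c (i + s)) ∈ Op X) {m : ℕ} (hm : m ≤ 2 * X.dim) :
    op W X (cls c m) ∈ Op X := by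
  classical
  -- for each degree in another class, a shift which separates it from `m`
  have h1 : ∀ u, ∃ s, (u ≤ 2 * X.dim → ¬ Same c u m → s ≤ N ∧ c (u + s) ≠ c (m + s)) := by
    intro u
    by_cases hu : u ≤ 2 * X.dim
    · by_cases hs : Same c u m
      · exact ⟨0, fun _ h' => absurd hs h'⟩
      · have h2 : ¬ ∀ s ≤ N, c (u + s) = c (m + s) := fun h' => hs (hN u hu m hm h')
        push Not at h2
        obtain ⟨s, hsN, hs'⟩ := h2
        exact ⟨s, fun _ _ => ⟨hsN, hs'⟩⟩
    · exact ⟨0, fun h' => absurd h' hu⟩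
  choose s hs using h1
  set f : ℕ → ℕ → ℚ := fun u i => if Same c u m then 1 else
    (c (m + s u) - c (u + s u))⁻¹ * (c (i + s u) + -1 * c (u + s u)) with hf
  have h2 : op W X (fun i => ∏ u ∈ range (2 * X.dim + 1), f u i) ∈ Op X := by
    apply fprod h
    intro u hu
    rw [mem_range] at hu
    by_cases hS : Same c u m
    · have : f u = fun _ => 1 := by
        funext i
        rw [hf]
        simp only [if_pos hS]
      rw [this]
      exact fconst h 1
    · have : f u = fun i => (c (m + s u) - c (u + s u))⁻¹ * (c (i + s u) + -1 * c (u + s u)) := by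
        funext i
        rw [hf]
        simp only [if_neg hS]
      rw [this]
      exact fsmul h _ (fadd h (hc _ (hs u (by omega) hS).1) (fconst h _))
  rwa [op_congr (c' := cls c m)] at h2
  intro i hi
  rw [cls]
  split_ifs with hS
  · apply Finset.prod_eq_one
    intro u hu
    rw [mem_range] at hu
    rw [hf]
    dsimp only
    split_ifs with hS'
    · rfl
    · rw [hS (s u), neg_one_mul, ← sub_eq_add_neg, inv_mul_cancel₀]
      rw [sub_ne_zero]
      exact (hs u (by omega) hS').2.symm
  · apply Finset.prod_eq_zero (i := i) (mem_range.2 (by omega))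
    rw [hf]
    simp only [if_neg hS]
    rw [neg_one_mul, add_neg_cancel, mul_zero]

/-- The functions which are constant on the classes. -/
lemma inv_mem (h : OpClass W Op) {c : ℕ → ℚ} (hc : ∀ m, op W X (cls c m) ∈ Op X) {f : ℕ → ℚ}
    (hf : ∀ i m, Same c i m → f i = f m) : op W X f ∈ Op X := by
  classical
  -- the representatives
  set R : ℕ → Prop := fun m => ∀ l < m, ¬ Same c l m with hR
  have h1 : op W X (fun i => ∑ m ∈ range (2 * X.dim + 1), (if R m then f m else 0) * cls c m i)
      ∈ Op X := fsum h fun m _ => fsmul h _ (hc m)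
  rwa [op_congr (c' := f)] at h1
  intro i hi
  have hex : ∃ m, Same c i m := ⟨i, same_refl c i⟩
  set m := Nat.find hex with hm
  have hmS : Same c i m := Nat.find_spec hex
  have hmi : m ≤ i := Nat.find_min' hex (same_refl c i)
  have hRm : R m := fun l hl hS => Nat.find_min hex hl (hmS.trans hS.symm)
  rw [Finset.sum_eq_single_of_mem m (mem_range.2 (by omega))]
  · rw [if_pos hRm, cls, if_pos hmS, mul_one]
    exact (hf i m hmS).symm
  · intro l _ hl
    by_cases hS : Same c i l
    · have hRl : ¬ R l := by
        intro hRl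
        rcases lt_trichotomy l m with h' | h' | h'
        · exact Nat.find_min hex h' hS
        · exact hl h'
        · exact hRl m h' (hmS.symm.trans hS)
      rw [if_neg hRl, zero_mul]
    · rw [cls, if_neg hS, mul_zero]

end Pool.Agent.N103.WT
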