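import Pool.Agent.N103.OC.Final
import Pool.Agent.N103.WT.Core

/-!
# Operators acting by given scalars on the cohomology groups: products with curves
-/

set_option autoImplicit false

open CategoryTheory AlgebraicGeometry Finset TensorProduct

universe u v

namespace Pool.Agent.N103.WT

open Pool.Agent.H914 VarClass Obj WeilCohomology Pool.Agent.N190.CB Pool.Agent.N103.OC

variable {k : Type u} [Field k] {𝒱 : VarClass k} {ops : CycleOps 𝒱}
  {W : WeilCohomology.{u, v} ops} {X Y Z E : 𝒱.Obj}
  {Op : ∀ X : 𝒱.Obj, Set (Module.End W.K (W.H X))}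

/-! ### Curves -/

lemma exists_pair (hE : DualCycles ops E) {s : ℕ} (hs : s ≤ E.dim) :
    ∃ (a b : E.Cycles) (q : ℚ), E.IsCyc s a ∧ E.IsCyc (E.dim - s) b ∧ q ≠ 0 ∧
      W.tr E (W.cl E b * W.cl E a) = (q : W.K) := by
  obtain ⟨a, b, ha, hb, hab⟩ := hE s hs
  refine ⟨a, b, E.V.degCycle (ops.mul b a), ha, hb, by exact_mod_cast hab, ?_⟩
  have hz : E.IsCyc E.dim (ops.mul b a) := by
    have := ops.mul_mem hb ha
    rwa [show E.dim - s + s = E.dim by omega] at this
  rw [← W.cl_mul, W.tr_cl hz]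

lemma rat_inv_smul {V : Type*} [AddCommGroup V] [Module W.K V] {q : ℚ} (hq : q ≠ 0) (x : V) :
    ((q⁻¹ : ℚ) : W.K) • ((q : W.K) • x) = x := by
  rw [smul_smul, ← Rat.cast_mul, inv_mul_cancel₀ hq, Rat.cast_one, one_smul]

lemma proj_zero_mem (h : OpClass W Op) (hE : DualCycles ops E) :
    proj (W.isInternal E) 0 ∈ Op E := by
  obtain ⟨a, b, q, ha, hb, hq, hqe⟩ := exists_pair (W := W) hE (s := 0) (Nat.zero_le _)
  obtain ⟨ψ, hψ, h1⟩ := h.rank ha hb (by omega)
  have h2 := h.smul q⁻¹ hψ
  have hqK : (q : W.K) ≠ 0 := by exact_mod_cast hq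
  have h3 : ((q⁻¹ : ℚ) : W.K) • ψ = proj (W.isInternal E) 0 := by
    apply gr_ext (W.isInternal E)
    intro i x hx
    rw [LinearMap.smul_apply, h1]
    by_cases hi : i = 0
    · subst hi
      rw [proj_same _ hx]
      have hcl := W.cl_mem ha
      rw [mul_zero, W.gr_zero] at hcl
      rw [W.gr_zero] at hx
      obtain ⟨α, hα⟩ := Submodule.mem_span_singleton.1 hcl
      obtain ⟨ξ, hξ⟩ := Submodule.mem_span_singleton.1 hx
      have hα0 : α ≠ 0 := by
        rintro rfl
        rw [zero_smul] at hα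
        rw [← hα, mul_zero, map_zero] at hqe
        exact hqK hqe.symm
      have hx' : x = (ξ * α⁻¹) • W.cl E a := by
        rw [← hα, smul_smul, mul_assoc, inv_mul_cancel₀ hα0, mul_one, hξ]
      rw [hx', mul_smul_comm, map_smul, hqe, smul_eq_mul, mul_comm, ← smul_smul, rat_inv_smul hq]
    · rw [proj_ne _ hx hi]
      rw [W.tr_eq_zero (W.mul_mem (W.cl_mem hb) hx) (by omega), zero_smul, smul_zero]
  rwa [h3] at h2

lemma proj_top_mem (h : OpClass W Op) (hE : DualCycles ops E) :
    proj (W.isInternal E) (2 * E.dim) ∈ Op E := by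
  obtain ⟨a, b, q, ha, hb, hq, hqe⟩ := exists_pair (W := W) hE (s := E.dim) le_rfl
  obtain ⟨ψ, hψ, h1⟩ := h.rank ha hb (by omega)
  have h2 := h.smul q⁻¹ hψ
  have hqK : (q : W.K) ≠ 0 := by exact_mod_cast hq
  have hbm := W.cl_mem hb
  rw [Nat.sub_self, mul_zero] at hbm
  have hbm' := hbm
  rw [W.gr_zero] at hbm'
  obtain ⟨β, hβ⟩ := Submodule.mem_span_singleton.1 hbm'
  have hβ0 : β ≠ 0 := by
    rintro rfl
    rw [zero_smul] at hβ
    rw [← hβ, zero_mul, map_zero] at hqe
    exact hqK hqe.symm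
  have h3 : ((q⁻¹ : ℚ) : W.K) • ψ = proj (W.isInternal E) (2 * E.dim) := by
    apply gr_ext (W.isInternal E)
    intro i x hx
    rw [LinearMap.smul_apply, h1]
    by_cases hi : i = 2 * E.dim
    · subst hi
      rw [proj_same _ hx]
      -- the difference is orthogonal to everything
      have hcl := W.cl_mem ha
      have hy : x - ((q⁻¹ : ℚ) : W.K) • (W.tr E (W.cl E b * x) • W.cl E a) = 0 := by
        apply W.nondeg
        intro z
        have hym : x - ((q⁻¹ : ℚ) : W.K) • (W.tr E (W.cl E b * x) • W.cl E a) ∈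
            W.gr E (2 * E.dim) :=
          Submodule.sub_mem _ hx (Submodule.smul_mem _ _ (Submodule.smul_mem _ _ hcl))
        refine gr_induction (W.isInternal E) (p := fun z => W.tr E
          ((x - ((q⁻¹ : ℚ) : W.K) • (W.tr E (W.cl E b * x) • W.cl E a)) * z) = 0) ?_ ?_ z
        · intro j z hz
          by_cases hj : j = 0
          · subst hj
            rw [W.gr_zero] at hz
            obtain ⟨ζ, hζ⟩ := Submodule.mem_span_singleton.1 hz
            have hz' : z = (ζ * β⁻¹) • W.cl E b := by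
              rw [← hβ, smul_smul, mul_assoc, inv_mul_cancel₀ hβ0, mul_one, hζ]
            rw [hz', mul_smul_comm, map_smul, W.comm hym hbm, mul_zero, pow_zero, one_smul,
              mul_sub, map_sub, mul_smul_comm, mul_smul_comm, map_smul, map_smul, hqe,
              smul_eq_mul, smul_eq_mul, smul_eq_mul]
            have e1 : ((q⁻¹ : ℚ) : W.K) * (W.tr E (W.cl E b * x) * (q : W.K)) =
                W.tr E (W.cl E b * x) := by
              rw [mul_comm (W.tr E _), ← mul_assoc, ← Rat.cast_mul, inv_mul_cancel₀ hq,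
                Rat.cast_one, one_mul]
            rw [e1, sub_self, mul_zero]
          · exact W.tr_eq_zero (W.mul_mem hym hz) (by omega)
        · intro z z' hz hz'
          rw [mul_add, map_add, hz, hz', add_zero]
      exact (sub_eq_zero.1 hy).symm
    · rw [proj_ne _ hx hi]
      rw [W.tr_eq_zero (W.mul_mem (W.cl_mem hb) hx) (by omega), zero_smul, smul_zero]
  rwa [h3] at h2

/-- The Künneth components of a curve. -/
lemma proj_curve (h : OpClass W Op) (hE : IsCurve W E) (j : ℕ) :
    proj (W.isInternal E) j ∈ Op E := by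
  obtain ⟨hd, -, hp⟩ := hE
  have h0 := proj_zero_mem h hp
  have h2 := proj_top_mem h hp
  rw [hd, mul_one] at h2
  rcases Nat.lt_or_ge j 3 with hj | hj
  · interval_cases j
    · exact h0
    · have h1 := sum_proj (W.isInternal E) W_hbd
      rw [hd, Finset.sum_range_succ, Finset.sum_range_succ, Finset.sum_range_succ,
        Finset.sum_range_zero, zero_add] at h1
      have h3 : proj (W.isInternal E) 1 =
          1 - proj (W.isInternal E) 0 - proj (W.isInternal E) 2 := by
        rw [← h1]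
        abel
      rw [h3]
      exact h.sub (h.sub (h.one E) h0) h2
    · exact h2
  · rw [proj_zero_of_bot (W.gr_eq_bot E j (by omega))]
    exact h.zero E

/-- **All shifts by contraction with a curve.** -/
lemma curve_shift (h : OpClass W Op) (hE : IsCurve W E) {f : ℕ → ℚ}
    (hf : op W (X.prod E) f ∈ Op (X.prod E)) {s : ℕ} (hs : s ≤ 2) :
    op W X (fun i => f (i + s)) ∈ Op X := by
  obtain ⟨hd, hE1, hp⟩ := hE
  have h0 : op W X (fun i => f (i + 0)) ∈ Op X :=
    h.shift (pairs_of_dual (W := W) hp) hf (s := 0) (by omega)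
  have h2 : op W X (fun i => f (i + 2)) ∈ Op X :=
    h.shift (pairs_of_dual (W := W) hp) hf (s := 1) (by omega)
  interval_cases s
  · exact h0
  · have h3 := h.euler hf
    have hb : (W.betti E 1 : ℚ) ≠ 0 := by
      intro h0
      exact hE1 (betti_eq_zero_iff.1 (by exact_mod_cast h0))
    have h4 : op W X (fun i => f (i + 0) * W.betti E 0 + f (i + 1) * (-(W.betti E 1 : ℚ)) +
        f (i + 2) * W.betti E 2) ∈ Op X := by
      have e1 : op W X (fun i => f (i + 0) * W.betti E 0 + f (i + 1) * (-(W.betti E 1 : ℚ)) +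
          f (i + 2) * W.betti E 2) = scal (W.isInternal X) (fun i =>
            ∑ j ∈ range (2 * E.dim + 1), ((f (i + j) : ℚ) : W.K) *
              ((-1 : W.K) ^ j * (W.betti E j : W.K))) := by
        rw [op]
        congr 1
        funext i
        rw [hd, Finset.sum_range_succ, Finset.sum_range_succ, Finset.sum_range_succ,
          Finset.sum_range_zero]
        push_cast
        ring
      rw [e1]
      exact h3
    have h5 := fsmul h (-(W.betti E 1 : ℚ))⁻¹ (fadd h h4 (fadd h
      (fsmul h (-(W.betti E 0 : ℚ)) h0) (fsmul h (-(W.betti E 2 : ℚ)) h2)))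
    rwa [op_congr (c' := fun i => f (i + 1))] at h5
    intro i _
    field_simp
    ring
  · exact h2

lemma tower_shift (h : OpClass W Op) (hE : IsCurve W E) (r : ℕ) : ∀ f : ℕ → ℚ,
    op W (timesPow X E r) f ∈ Op (timesPow X E r) → ∀ s ≤ 2 * r,
      op W X (fun i => f (i + s)) ∈ Op X := by
  induction r with
  | zero =>
    intro f hf s hs
    obtain rfl : s = 0 := by omega
    exact hf
  | succ r ih =>
    intro f hf s hs
    obtain ⟨s1, s2, h1, h2, h3⟩ : ∃ s1 s2, s1 ≤ 2 * r ∧ s2 ≤ 2 ∧ s1 + s2 = s := by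
      by_cases hle : s ≤ 2 * r
      · exact ⟨s, 0, hle, Nat.zero_le _, rfl⟩
      · exact ⟨2 * r, s - 2 * r, le_rfl, by omega, by omega⟩
    have h4 : op W (timesPow X E r) (fun i => f (i + s2)) ∈ Op (timesPow X E r) :=
      curve_shift h hE hf h2
    have h5 := ih _ h4 s1 h1
    rw [← h3]
    simpa only [add_assoc] using h5

/-- An operator on a product. -/
lemma op_prod (f : ℕ → ℚ) : op W (X.prod Z) f = ∑ j ∈ range (2 * Z.dim + 1),
    extOp W (op W X (fun i => f (i + j))) (proj (W.isInternal Z) j) := by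
  apply op_ext
  intro i j a ha b hb
  rw [op, scal_apply_ext _ ha hb]
  by_cases hj : j ∈ range (2 * Z.dim + 1)
  · rw [LinearMap.sum_apply, Finset.sum_eq_single_of_mem j hj, extOp_tmul, proj_same _ hb, op,
      scal_apply _ _ ha, map_smul, smul_mul_assoc]
    intro j' _ hj'
    rw [extOp_tmul, proj_ne _ hb (Ne.symm hj'), map_zero, mul_zero]
  · rw [mem_range] at hj
    rw [W_hbd (X := Z) j (by omega), Submodule.mem_bot] at hb
    rw [hb, map_zero, mul_zero, smul_zero, map_zero]

lemma tower_inv (h : OpClass W Op) (hE : IsCurve W E) {c : ℕ → ℚ}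
    (hc : ∀ m, op W X (cls c m) ∈ Op X) (r : ℕ) : ∀ f : ℕ → ℚ,
    (∀ i m, Same c i m → f i = f m) → op W (timesPow X E r) f ∈ Op (timesPow X E r) := by
  induction r with
  | zero => exact fun f hf => inv_mem h hc hf
  | succ r ih =>
    intro f hf
    change op W ((timesPow X E r).prod E) f ∈ Op ((timesPow X E r).prod E)
    rw [op_prod]
    exact h.sum fun j _ => h.ext (ih _ fun i m him => hf _ _ (him.add j)) (proj_curve h hE j)

/-- **One operator on the product with a power of a curve.** -/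
theorem tower_iff (h : OpClass W Op) (hE : IsCurve W E) {c : ℕ → ℚ} {N r : ℕ}
    (hN : ∀ i ≤ 2 * X.dim, ∀ m ≤ 2 * X.dim, (∀ s ≤ N, c (i + s) = c (m + s)) → Same c i m)
    (hr : N ≤ 2 * r) : op W (timesPow X E r) c ∈ Op (timesPow X E r) ↔
      ∀ m, op W X (cls c m) ∈ Op X := by
  constructor
  · intro h1 m
    have h2 : ∀ m ≤ 2 * X.dim, op W X (cls c m) ∈ Op X := fun m hm =>
      cls_mem h hN (fun s hs => tower_shift h hE r c h1 s (hs.trans hr)) hm
    by_cases hex : ∃ i ≤ 2 * X.dim, Same c i m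
    · obtain ⟨i, hi, him⟩ := hex
      have e1 : cls c m = cls c i := by
        funext l
        unfold cls
        by_cases hl : Same c l m
        · rw [if_pos hl, if_pos (hl.trans him.symm)]
        · rw [if_neg hl, if_neg (fun h' => hl (h'.trans him))]
      rw [e1]
      exact h2 i hi
    · rw [op_congr (c' := fun _ => 0)]
      · exact fconst h 0
      · intro i hi
        rw [cls, if_neg fun h' => hex ⟨i, hi, h'⟩]
  · intro h1
    exact tower_inv h hE h1 r c fun i m him => by simpa using him 0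

lemma even_mem (h : OpClass W Op) {c : ℕ → ℚ} (hc : NoOddPeriod c)
    (h1 : ∀ m, op W X (cls c m) ∈ Op X) : op W X even ∈ Op X :=
  inv_mem h h1 fun _ _ him => same_even hc him

lemma cls_eq_delta {c : ℕ → ℚ} (hc : NoPeriod c) (m : ℕ) : cls c m = delta m := by
  funext i
  unfold cls delta
  by_cases him : i = m
  · subst him
    rw [if_pos (same_refl c i), if_pos rfl]
  · rw [if_neg fun h' => him (same_eq hc h'), if_neg him]

/-- **All varieties.** -/
theorem all_iff (h : OpClass W Op) (hE : IsCurve W E) (c : ℕ → ℚ) :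
    (∀ X, op W X c ∈ Op X) ↔ ∀ X m, op W X (cls c m) ∈ Op X := by
  constructor
  · intro h1 X
    obtain ⟨N, hN⟩ := exists_bound c (2 * X.dim)
    exact (tower_iff h hE hN (r := N) (by omega)).1 (h1 _)
  · intro h1 X
    exact inv_mem h (h1 X) fun i m him => by simpa using him 0

/-! ### Cycles -/

lemma rationalWeight_iff {c : ℕ → ℚ} : RationalWeight W X c ↔ op W X c ∈ ratOp W X := by
  constructor
  · rintro ⟨z, hz, h⟩
    exact ⟨z, hz, actsAs_iff.1 h⟩
  · rintro ⟨z, hz, h⟩
    exact ⟨z, hz, actsAs_iff.2 h⟩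

lemma spanWeight_iff {c : ℕ → ℚ} :
    SpanWeight W X c ↔ op W X c ∈ (KOp W X X 0 : Set (Module.End W.K (W.H X))) := by
  have e1 : KOp W X X 0 = Submodule.span W.K {φ : W.H X →ₗ[W.K] W.H X |
      ∃ z, (X.prod X).IsCyc X.dim z ∧ W.corr (W.cl (X.prod X) z) = φ} := by
    rw [KOp]
    congr 1
    ext φ
    constructor
    · rintro ⟨p, hp, z, hz, rfl⟩
      obtain rfl : p = X.dim := by omega
      exact ⟨z, hz, rfl⟩
    · rintro ⟨z, hz, rfl⟩
      exact ⟨X.dim, by simp, z, hz, rfl⟩
  rw [SpanWeight, CombinationActsAs, ← e1]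
  constructor
  · rintro ⟨P, hP, hP'⟩
    rw [actsAs_iff] at hP'
    rw [← hP']
    exact hP
  · intro h
    exact ⟨_, h, actsAs_iff.2 rfl⟩

/-- Both kinds of operators. -/
lemma exists_class {A : 𝒱.Obj → (ℕ → ℚ) → Prop}
    (hA : A = RationalWeight W ∨ A = SpanWeight W) :
    ∃ Op : ∀ X : 𝒱.Obj, Set (Module.End W.K (W.H X)), OpClass W Op ∧
      ∀ X c, A X c ↔ op W X c ∈ Op X := by
  rcases hA with rfl | rfl
  · exact ⟨ratOp W, rat_class W, fun X c => rationalWeight_iff⟩
  · exact ⟨_, kop_class W, fun X c => spanWeight_iff⟩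

end Pool.Agent.N103.WT
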